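import Mathlib
import Pool.Agent.Helper64.MC.St1

/-!
MP_4042d8_co, section E (`j = 1`, arbitrary simple cubic graphs): statements of the rows.
-/

set_option autoImplicit false
set_option linter.unusedSectionVars false
set_option linter.unusedSimpArgs false
set_option linter.unusedVariables false

namespace Pool.Agent.Helper45.MC

open Pool.Agent.Helper27.MC Pool.Agent.Helper51.MC Pool.Agent.Helper88.MC Pool.Agent.Helper64.MC

/-- row H3J (helper9): for `j = 1` a 3-hub gives a final colouring. -/
def ST_H3J : Prop :=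
  ∀ (V : Type) [Fintype V] [DecidableEq V] (G : SimpleGraph V) [DecidableRel G.Adj],
    G.IsRegularOfDegree 3 → ∀ (c : V → Bool), Opt G c 1 →
      ∀ a s1 s2 s3 v1 v2 v3 p1 p2 p3, Hub3 G c a s1 s2 s3 v1 v2 v3 p1 p2 p3 → Good G

/-- THEOREM C (helper96, helper53), the part used by section E: there is an optimal colouring with
the same `j`, with at least `6 j` free vertices, such that: if `x` is an apex (two neighbours of type
`S`), its mate `p` is not an apex, `u` is a neighbour of type `S` of `p`, and the other true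
neighbour `e` of `u` is of type `A`, then the two other neighbours of `e` are mates. -/
def ST_THC : Prop :=
  ∀ (V : Type) [Fintype V] [DecidableEq V] (G : SimpleGraph V) [DecidableRel G.Adj],
    G.IsRegularOfDegree 3 → ∀ (c₀ : V → Bool) (j : ℕ), 1 ≤ j → Opt G c₀ j →
      ∃ c : V → Bool, Opt G c j ∧ 6 * j ≤ (Fr G c).card ∧
        ∀ x p u m e y z, x ∈ Th G c → Rm G c x p → p ∉ Th G c → Sv G c u m p e → tA G c e →
          Av G c e u y z → Rm G c y z

/-- K5: there are no two vertices of type `A` with the same three neighbours `u`, `v`, `t`, two of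
them (`u`, `v`) mates. [`cost {a,b,u,v,t} = -1`, `dd = 1`] -/
def ST_K5 : Prop :=
  ∀ (V : Type) [Fintype V] [DecidableEq V] (G : SimpleGraph V) [DecidableRel G.Adj],
    G.IsRegularOfDegree 3 → ∀ (c : V → Bool) (j : ℕ), 1 ≤ j → Opt G c j →
      ∀ a b u v t, a ≠ b → Av G c a u v t → Av G c b u v t → Rm G c u v → tS G c t → False

/-- DIA: the members `t`, `t'` of an apex `q` are not both adjacent to a vertex `a` of type `A` whose
third neighbour `u` is of type `S`. [`cost {q,a,t,t',u} = -1`, `dd = 1`] -/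
def ST_DIA : Prop :=
  ∀ (V : Type) [Fintype V] [DecidableEq V] (G : SimpleGraph V) [DecidableRel G.Adj],
    G.IsRegularOfDegree 3 → ∀ (c : V → Bool) (j : ℕ), 1 ≤ j → Opt G c j →
      ∀ a q u t t', Av G c a u t t' → tQ G c q → G.Adj q t → G.Adj q t' → Rm G c t t' →
        tS G c u → False

/-- UA: slot `(u,a)` of kind K3 (`t`, `t'` mates), `q` the `Q`-neighbour of `t`, `k` the mate of `q`,
the two false neighbours `g`, `g'` of `k` are not `t'` and have no mate except possibly `u`; together
with `U3(s)`. After the flip of `{u, a, t, k, s}`: pairs `{u,b}`, `{t,q}` (true), `{a,t'}` (false),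
false path `g k g'`, true path `y s y'` (`y`, `y'` the true neighbours of `s`). -/
def ST_UA : Prop :=
  ∀ (V : Type) [Fintype V] [DecidableEq V] (G : SimpleGraph V) [DecidableRel G.Adj],
    G.IsRegularOfDegree 3 → ∀ (c : V → Bool), (∀ v, mu G c v ≤ 1) →
      ∀ u m a b t t' q k g g' s, Sv G c u m a b → tA G c b → Av G c a u t t' →
        Sv G c t t' a q → Rm G c q k → N3 G k q g g' → g ≠ t' → g' ≠ t' →
        (∀ w, Rm G c g w → w = u) → (∀ w, Rm G c g' w → w = u) →
        s ∈ Fr G c → s ≠ u → s ≠ m → s ≠ t' → ¬ G.Adj s b → ∃ T, Blk G c {u, a, t, k, s} T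

/-- UB: as UA, but the false neighbour `g` of `k` has the mate `h ≠ u` and `g'` is of type `B`;
together with `U4(s)`, `s` in `T1`. After the flip of `{u, a, t, k, s}`: pairs `{u,b}`, `{t,q}`,
`{a,t'}`, false path `h g k g'`, true path `y s q' q''`. -/
def ST_UB : Prop :=
  ∀ (V : Type) [Fintype V] [DecidableEq V] (G : SimpleGraph V) [DecidableRel G.Adj],
    G.IsRegularOfDegree 3 → ∀ (c : V → Bool), (∀ v, mu G c v ≤ 1) →
      ∀ u m a b t t' q k g g' h s, Sv G c u m a b → tA G c b → Av G c a u t t' →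
        Sv G c t t' a q → Rm G c q k → N3 G k q g g' → g ≠ t' → tB G c g' →
        Rm G c g h → h ≠ u → (∀ w, G.Adj q w → tS G c w → w = t) →
        s ∈ T1 G c → s ≠ t → s ≠ t' → s ≠ g → s ≠ h → s ≠ m → ¬ G.Adj s b →
        ∃ T, Blk G c {u, a, t, k, s} T

/-- UC: as UA, but `k` is adjacent to `t'` and its third neighbour `g` is of type `B`; together with
`U4(s)`, `s` in `T1`. After the flip of `{u, a, t, k, s}`: pairs `{u,b}`, `{t,q}`, false path
`a t' k g`, true path `y s q' q''`. -/
def ST_UC : Prop :=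
  ∀ (V : Type) [Fintype V] [DecidableEq V] (G : SimpleGraph V) [DecidableRel G.Adj],
    G.IsRegularOfDegree 3 → ∀ (c : V → Bool), (∀ v, mu G c v ≤ 1) →
      ∀ u m a b t t' q k g s, Sv G c u m a b → tA G c b → Av G c a u t t' →
        Sv G c t t' a q → Rm G c q k → N3 G k q t' g → tB G c g →
        (∀ w, G.Adj q w → tS G c w → w = t) →
        s ∈ T1 G c → s ≠ t → s ≠ t' → s ≠ m → ¬ G.Adj s b →
        ∃ T, Blk G c {u, a, t, k, s} T

/-- the case `j = 1` -/
def ST_EJ : Prop :=
  ∀ (V : Type) [Fintype V] [DecidableEq V] (G : SimpleGraph V) [DecidableRel G.Adj],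
    G.IsRegularOfDegree 3 → ∀ (c : V → Bool), Opt G c 1 → Good G

end Pool.Agent.Helper45.MC
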