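import Pool.Agent.Helper45.MC.EJ
import Pool.Agent.Helper35.MC.UA
import Pool.Agent.Helper35.MC.H3
import Pool.Agent.Helper91.MC.UB
import Pool.Agent.Helper92.MC.UC
import Pool.Agent.Helper92.MC.FCNT
import Pool.Agent.Helper9.MC.Hub
import Pool.Agent.Helper96.MC.THE
import Pool.Agent.Helper53.MC.CCF

/-!
MP_4042d8_co, section E: the case `j = 1` for arbitrary simple cubic graphs, final assembly.
-/

set_option autoImplicit false
set_option linter.unusedSectionVars false
set_option linter.unusedSimpArgs false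
set_option linter.unusedVariables false

namespace Pool.Agent.Helper45.MC

open Pool.Agent.Helper27.MC Pool.Agent.Helper51.MC Pool.Agent.Helper88.MC Pool.Agent.Helper64.MC

theorem st_UA : ST_UA := by
  intro V _ _ G _ hG c hm u m a b t t' q k g g' s h1 h2 h3 h4 h5 h6 h7 h8 h9 h10 h11 h12 h13 h14 h15
  exact Pool.Agent.Helper35.MC.ua_of G hG c hm u m a b t t' q k g g' s h1 h2 h3 h4 h5 h6 h7 h8 h9
    h10 h11 h12 h13 h14 h15

theorem H3J_of (hH : ST_H3) : ST_H3J := by
  intro V _ _ G _ hG c hO a s1 s2 s3 v1 v2 v3 p1 p2 p3 H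
  exact Pool.Agent.Helper9.MC.hub_all hH Pool.Agent.Helper92.MC.st_FCNT hG hO H

/-- the case `j = 1`, from `ST_H3` and the count CC of section C -/
theorem EJ_of (hH : ST_H3) (hC : Pool.Agent.Helper96.MC.ST_CC) : ST_EJ :=
  st_EJ (H3J_of hH) (Pool.Agent.Helper96.MC.THE Pool.Agent.Helper92.MC.st_FCNT hC)
    st_UA Pool.Agent.Helper91.MC.st_UB Pool.Agent.Helper92.MC.st_UC
    Pool.Agent.Helper92.MC.st_FCNT

/-- the case `j = 1`, for all simple cubic graphs -/
theorem EJ : ST_EJ := EJ_of Pool.Agent.Helper35.MC.st_H3 Pool.Agent.Helper53.MC.cCC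

end Pool.Agent.Helper45.MC
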