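import Pool.Agent.Helper45.MC.StE
import Pool.Agent.Helper91.MC.SVX

/-!
MP_4042d8_co, section E: the two cost computations K5 and DIA.
-/

set_option autoImplicit false
set_option linter.unusedSectionVars false
set_option linter.unusedSimpArgs false
set_option linter.unusedVariables false

namespace Pool.Agent.Helper45.MC

open Pool.Agent.Helper27.MC Pool.Agent.Helper51.MC Pool.Agent.Helper88.MC Pool.Agent.Helper64.MC
  Pool.Agent.Helper91.MC

theorem st_K5 : ST_K5 := by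
  intro V _ _ G _ hG c j hj hO a b u v t hab Aa Ab ruv tSt
  have hm := hO.mu1
  have na : a ≠ u := by rintro rfl; have := Aa.cx; rw [Aa.ca] at this; cases this
  have na2 : a ≠ v := by rintro rfl; have := Aa.cy; rw [Aa.ca] at this; cases this
  have na3 : a ≠ t := by rintro rfl; have := Aa.cz; rw [Aa.ca] at this; cases this
  have nb1 : b ≠ u := by rintro rfl; have := Ab.cx; rw [Ab.ca] at this; cases this
  have nb2 : b ≠ v := by rintro rfl; have := Ab.cy; rw [Ab.ca] at this; cases this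
  have nb3 : b ≠ t := by rintro rfl; have := Ab.cz; rw [Ab.ca] at this; cases this
  have mu_u : mu G c u = 1 := mu_of_rm hm ruv
  have mu_v : mu G c v = 1 := mu_of_rm hm ruv.symm
  have h1 := Ppos hG hO [a, b, u, v, t]
    (by simp [hab, na, na2, na3, nb1, nb2, nb3, Aa.n3.xy, Aa.n3.xz, Aa.n3.yz]) 1
    (by simp [dl_cons, dl_nil, Aa.ca, Ab.ca, Aa.cx, Aa.cy, Aa.cz]) (by exact_mod_cast hj)
  simp only [cl_cons, cl_nil, List.map_cons, List.map_nil, List.sum_cons, List.sum_nil, av_mu Aa,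
    av_mu Ab, mu_u, mu_v, tSt.2] at h1
  have e1 : 0 ≤ sf G c a b := sf_nrm (nomate (av_mu Aa) b)
  have e2 : sf G c a u = 1 := sf_adj ((Aa.n3.nb u).2 (by simp)) (by rw [Aa.ca, Aa.cx]; decide)
  have e3 : sf G c a v = 1 := sf_adj ((Aa.n3.nb v).2 (by simp)) (by rw [Aa.ca, Aa.cy]; decide)
  have e4 : sf G c a t = 1 := sf_adj ((Aa.n3.nb t).2 (by simp)) (by rw [Aa.ca, Aa.cz]; decide)
  have e5 : sf G c b u = 1 := sf_adj ((Ab.n3.nb u).2 (by simp)) (by rw [Ab.ca, Ab.cx]; decide)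
  have e6 : sf G c b v = 1 := sf_adj ((Ab.n3.nb v).2 (by simp)) (by rw [Ab.ca, Ab.cy]; decide)
  have e7 : sf G c b t = 1 := sf_adj ((Ab.n3.nb t).2 (by simp)) (by rw [Ab.ca, Ab.cz]; decide)
  have e8 : sf G c u v = -1 := sf_rm ruv
  have e9 : 0 ≤ sf G c u t := sf_nrm (fun h => Aa.n3.yz (rm_uniq (hm u) ruv h))
  have e10 : 0 ≤ sf G c v t := sf_nrm (fun h => Aa.n3.xz (rm_uniq (hm v) ruv.symm h))
  push_cast at h1
  linarith

theorem st_DIA : ST_DIA := by
  intro V _ _ G _ hG c j hj hO a q u t t' Aa hqQ aqt aqt' rtt tSu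
  have hm := hO.mu1
  have naq : a ≠ q := by
    rintro rfl
    have := hqQ.2
    rw [av_mu Aa] at this
    omega
  have na : a ≠ u := by rintro rfl; have := Aa.cx; rw [Aa.ca] at this; cases this
  have na2 : a ≠ t := by rintro rfl; have := Aa.cy; rw [Aa.ca] at this; cases this
  have na3 : a ≠ t' := by rintro rfl; have := Aa.cz; rw [Aa.ca] at this; cases this
  have nq1 : q ≠ u := by rintro rfl; have := Aa.cx; rw [hqQ.1] at this; cases this
  have nq2 : q ≠ t := aqt.ne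
  have nq3 : q ≠ t' := aqt'.ne
  have mu_t : mu G c t = 1 := mu_of_rm hm rtt
  have mu_t' : mu G c t' = 1 := mu_of_rm hm rtt.symm
  have h1 := Ppos hG hO [q, a, u, t, t']
    (by simp [naq.symm, na, na2, na3, nq1, nq2, nq3, Aa.n3.xy, Aa.n3.xz, Aa.n3.yz]) 1
    (by simp [dl_cons, dl_nil, Aa.ca, hqQ.1, Aa.cx, Aa.cy, Aa.cz]) (by exact_mod_cast hj)
  simp only [cl_cons, cl_nil, List.map_cons, List.map_nil, List.sum_cons, List.sum_nil, av_mu Aa,
    hqQ.2, mu_t, mu_t', tSu.2] at h1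
  have e1 : 0 ≤ sf G c q a := sf_nrm (fun h => nomate (av_mu Aa) q h.symm)
  have e2 : 0 ≤ sf G c q u := sf_ge (by rw [hqQ.1, Aa.cx]; decide)
  have e3 : sf G c q t = 1 := sf_adj aqt (by rw [hqQ.1, Aa.cy]; decide)
  have e4 : sf G c q t' = 1 := sf_adj aqt' (by rw [hqQ.1, Aa.cz]; decide)
  have e5 : sf G c a u = 1 := sf_adj ((Aa.n3.nb u).2 (by simp)) (by rw [Aa.ca, Aa.cx]; decide)
  have e6 : sf G c a t = 1 := sf_adj ((Aa.n3.nb t).2 (by simp)) (by rw [Aa.ca, Aa.cy]; decide)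
  have e7 : sf G c a t' = 1 := sf_adj ((Aa.n3.nb t').2 (by simp)) (by rw [Aa.ca, Aa.cz]; decide)
  have e8 : sf G c t t' = -1 := sf_rm rtt
  have e9 : 0 ≤ sf G c u t := sf_nrm (fun h => Aa.n3.xz (rm_uniq (hm t) h.symm rtt))
  have e10 : 0 ≤ sf G c u t' := sf_nrm (fun h => Aa.n3.xy (rm_uniq (hm t') h.symm rtt.symm))
  push_cast at h1
  linarith

end Pool.Agent.Helper45.MC
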