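import Pool.Agent.Helper45.MC.E1
import Pool.Agent.Helper91.MC.ONE
import Pool.Agent.Helper78.MC.SQ
import Pool.Agent.Helper35.MC.H2
import Pool.Agent.Helper42.MC.AP

/-!
MP_4042d8_co, section E: the case `j = 1` for arbitrary simple cubic graphs.
-/

set_option autoImplicit false
set_option linter.unusedSectionVars false
set_option linter.unusedSimpArgs false
set_option linter.unusedVariables false

namespace Pool.Agent.Helper45.MC

open Pool.Agent.Helper27.MC Pool.Agent.Helper51.MC Pool.Agent.Helper88.MC Pool.Agent.Helper64.MC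
  Pool.Agent.Helper91.MC Pool.Agent.Helper78.MC Pool.Agent.Helper35.MC Pool.Agent.Helper42.MC

variable {V : Type} [Fintype V] [DecidableEq V] {G : SimpleGraph V} [DecidableRel G.Adj]
  {c : V → Bool}

/-! ### data of vertices -/

/-- the data of an `S`-vertex with given mate and given true neighbour -/
theorem sv_mk (hG : G.IsRegularOfDegree 3) (hm : ∀ v, mu G c v ≤ 1) {s m a : V}
    (h : G.Adj s a) (ca : c a = true) (hsm : Rm G c s m) (cs : c s = false) :
    ∃ b, Sv G c s m a b := by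
  obtain ⟨m', b, S⟩ := sv_ex hG ⟨cs, mu_of_rm hm hsm⟩ h ca
  have : m' = m := rm_uniq (hm s) (sv_rm S) hsm
  subst this
  exact ⟨b, S⟩

/-- the data of an `S`-vertex with given mate -/
theorem sv_mk1 (hG : G.IsRegularOfDegree 3) (hm : ∀ v, mu G c v ≤ 1) {s m : V}
    (hsm : Rm G c s m) (cs : c s = false) : ∃ a b, Sv G c s m a b := by
  obtain ⟨m', a, b, nb, cm, ca, cb, hab, h1, h2⟩ := s_data hG ⟨cs, mu_of_rm hm hsm⟩
  obtain ⟨b', S⟩ := sv_mk hG hm ((nb a).2 (by simp)) ca hsm cs
  exact ⟨a, b', S⟩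

theorem av_perm {a x y z : V} (h : Av G c a x y z) : Av G c a y x z :=
  ⟨h.ca, h.cy, h.cx, h.cz, ⟨fun w => (h.n3.nb w).trans (by tauto), h.n3.xy.symm, h.n3.yz, h.n3.xz⟩⟩

theorem av_perm' {a x y z : V} (h : Av G c a x y z) : Av G c a x z y :=
  ⟨h.ca, h.cx, h.cz, h.cy, ⟨fun w => (h.n3.nb w).trans (by tauto), h.n3.xz, h.n3.xy, h.n3.yz.symm⟩⟩

theorem av_tA {a x y z : V} (h : Av G c a x y z) : tA G c a := ⟨h.ca, av_mu h⟩

/-- the data of an `A`-vertex with two given neighbours -/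
theorem av_mk2 (hG : G.IsRegularOfDegree 3) {a x y : V} (ha : tA G c a) (hx : G.Adj a x)
    (hy : G.Adj a y) (hxy : x ≠ y) : ∃ z, Av G c a x y z := by
  obtain ⟨y', z', A⟩ := av_ex hG ha hx
  rcases (A.n3.nb y).1 hy with h | h | h
  · exact absurd h.symm hxy
  · subst h; exact ⟨z', A⟩
  · subst h; exact ⟨y', av_perm' A⟩

/-- the data of an `A`-vertex with three given neighbours -/
theorem av_mk3 (hG : G.IsRegularOfDegree 3) {a x y z : V} (ha : tA G c a) (hx : G.Adj a x)
    (hy : G.Adj a y) (hz : G.Adj a z) (hxy : x ≠ y) (hxz : x ≠ z) (hyz : y ≠ z) :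
    Av G c a x y z := by
  obtain ⟨z', A⟩ := av_mk2 hG ha hx hy hxy
  rcases (A.n3.nb z).1 hz with h | h | h
  · exact absurd h.symm hxz
  · exact absurd h.symm hyz
  · subst h; exact A

theorem fr_tS {s : V} (h : s ∈ Fr G c) : tS G c s := (mem_Fr.1 h).1

theorem t1_tS {s : V} (h : s ∈ T1 G c) : tS G c s := (mem_T1.1 h).1

/-- true neighbours of a free vertex are of type `A` -/
theorem fr_tA (hm : ∀ v, mu G c v ≤ 1) {s a : V} (h : s ∈ Fr G c) (ha : G.Adj s a)
    (ca : c a = true) : tA G c a := by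
  rcases tA_or_tQ hm ca with h1 | h1
  · exact h1
  · exfalso
    have h2 := (mem_Fr.1 h).2
    unfold nQ at h2
    rw [Finset.card_eq_zero, Finset.filter_eq_empty_iff] at h2
    exact h2 (Finset.mem_univ a) ⟨ha, h1⟩

theorem fr_not_t1 {s : V} (h : s ∈ Fr G c) : s ∉ T1 G c := by
  intro h'
  have h1 := (mem_Fr.1 h).2
  have h2 := (mem_T1.1 h').2
  omega

/-- an `S`-vertex next to an `A`-vertex is free or of type `T1` -/
theorem s_fr_or (hG : G.IsRegularOfDegree 3) (hm : ∀ v, mu G c v ≤ 1) {s a : V} (hs : tS G c s)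
    (h : G.Adj s a) (ha : tA G c a) : s ∈ Fr G c ∨ s ∈ T1 G c := by
  obtain ⟨m, b, S⟩ := sv_ex hG hs h ha.1
  rcases tA_or_tQ hm S.cb with h1 | h1
  · exact Or.inl ((sv_Fr hm S).2 ⟨ha, h1⟩)
  · exact Or.inr ((sv_T1 hm S).2 (Or.inl ⟨ha, h1⟩))

/-- the `A`-neighbour of a vertex of type `T1` is unique -/
theorem t1_uniq (hG : G.IsRegularOfDegree 3) (hm : ∀ v, mu G c v ≤ 1) {s a a' : V}
    (hs : s ∈ T1 G c) (h : G.Adj s a) (ha : tA G c a) (h' : G.Adj s a') (ha' : tA G c a') :
    a' = a := by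
  obtain ⟨m, b, S⟩ := sv_ex hG (t1_tS hs) h ha.1
  rcases (S.n3.nb a').1 h' with e | e | e
  · have := ha'.1; rw [e, S.cm] at this; cases this
  · exact e
  · subst e
    exfalso
    exact fr_not_t1 ((sv_Fr hm S).2 ⟨ha, ha'⟩) hs

/-- two neighbours of type `S` make an apex -/
theorem th_mk (hG : G.IsRegularOfDegree 3) {q s s' : V} (hq : tQ G c q) (h : G.Adj q s)
    (h' : G.Adj q s') (hs : tS G c s) (hs' : tS G c s') (hne : s ≠ s') : q ∈ Th G c := by
  rw [mem_Th]
  refine ⟨hq, ?_⟩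
  obtain ⟨m, x, y, h1, h2, h3, nb, cm, cx, cy⟩ := (NB V G hG c q).1 hq.2
  rw [hq.1] at cm
  have ms : ¬ tS G c m := by intro h; have := h.1; rw [cm] at this; cases this
  have e : Finset.univ.filter (fun w => G.Adj q w ∧ tS G c w) = {s, s'} := by
    ext w
    simp only [Finset.mem_filter, Finset.mem_univ, true_and, Finset.mem_insert,
      Finset.mem_singleton]
    constructor
    · rintro ⟨h4, h5⟩
      have a1 := (nb w).1 h4
      have a2 := (nb s).1 h
      have a3 := (nb s').1 h'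
      have b1 : w ≠ m := by rintro rfl; exact ms h5
      have b2 : s ≠ m := by rintro rfl; exact ms hs
      have b3 : s' ≠ m := by rintro rfl; exact ms hs'
      have a1' : w = x ∨ w = y := by tauto
      have a2' : s = x ∨ s = y := by tauto
      have a3' : s' = x ∨ s' = y := by tauto
      rcases a1' with a1' | a1' <;> rcases a2' with a2' | a2' <;> rcases a3' with a3' | a3' <;>
        subst a1' <;> simp_all
    · rintro (rfl | rfl)
      · exact ⟨h, hs⟩
      · exact ⟨h', hs'⟩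
  unfold nS
  rw [e, Finset.card_pair hne]

section loc

/-! ### no 3-hub -/

/-- among three `S`-neighbours of an `A`-vertex two are mates -/
theorem hub2 (hG : G.IsRegularOfDegree 3)
    (noH : ∀ a s1 s2 s3 v1 v2 v3 p1 p2 p3, ¬ Hub3 G c a s1 s2 s3 v1 v2 v3 p1 p2 p3)
    {a x y z : V} (A : Av G c a x y z) (hx : tS G c x) (hy : tS G c y) (hz : tS G c z) :
    Rm G c x y ∨ Rm G c x z ∨ Rm G c y z := by
  by_contra hn
  push Not at hn
  obtain ⟨n1, n2, n3⟩ := hn
  obtain ⟨v1, p1, S1⟩ := sv_ex hG hx ((A.n3.nb x).2 (by simp)).symm A.ca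
  obtain ⟨v2, p2, S2⟩ := sv_ex hG hy ((A.n3.nb y).2 (by simp)).symm A.ca
  obtain ⟨v3, p3, S3⟩ := sv_ex hG hz ((A.n3.nb z).2 (by simp)).symm A.ca
  exact noH a x y z v1 v2 v3 p1 p2 p3 ⟨A, S1, S2, S3, n1, n2, n3⟩

/-- (F3'): two free neighbours of `a`, not mates, have the same other true neighbour -/
theorem f3e (hG : G.IsRegularOfDegree 3)
    (noH : ∀ a s1 s2 s3 v1 v2 v3 p1 p2 p3, ¬ Hub3 G c a s1 s2 s3 v1 v2 v3 p1 p2 p3)
    (hO : Opt G c 1) {a u m b t w : V} (U : Sv G c u m a b) (hb : tA G c b)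
    (A : Av G c a u t w) (ht : t ∈ Fr G c) (hut : ¬ Rm G c u t) : G.Adj t b := by
  have hm := hO.mu1
  have Sl := sv_slot hm U hb A
  have Sl' := sv_slot hm U hb (av_perm' A)
  have tt := fr_tS ht
  have uS := sv_tS hm U
  obtain ⟨r, e, T⟩ := sv_ex hG tt ((A.n3.nb t).2 (by simp)).symm A.ca
  have rt := sv_rm T
  have hru : r ≠ u := by rintro rfl; exact hut rt.symm
  have noT1 := fr_not_t1 ht
  have key : (∀ w', Rm G c w w' → w' = u) → G.Adj t b := by
    intro h
    rcases st_H2 V G hG c 1 (le_refl 1) hO u m a b w t r Sl' h rt hru with h1 | h1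
    · exact absurd h1 noT1
    · exact h1.2
  rcases tB_or_tS hm A.cz with hw | hw
  · exact key fun w' h => absurd h (nomate hw.2 w')
  · rcases hub2 hG noH A uS tt hw with h | h | h
    · exact absurd h hut
    · exact key fun w' h' => rm_uniq (hm w) h' h.symm
    · -- `w` is the mate of `t`
      have : r = w := rm_uniq (hm t) rt h
      subst this
      rcases AP V G hG c 1 (le_refl 1) hO u m a b t r e Sl h T with h1 | h1
      · exfalso
        have := fr_tA hm ht ((T.n3.nb e).2 (by simp)) T.cb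
        exact tA_not_tQ this h1
      · subst h1
        exact (T.n3.nb e).2 (by simp)

/-- the other true neighbour, as an `Sv` statement -/
theorem f3e' (hG : G.IsRegularOfDegree 3)
    (noH : ∀ a s1 s2 s3 v1 v2 v3 p1 p2 p3, ¬ Hub3 G c a s1 s2 s3 v1 v2 v3 p1 p2 p3)
    (hO : Opt G c 1) {a u m b t w r : V} (U : Sv G c u m a b) (hb : tA G c b)
    (A : Av G c a u t w) (ht : t ∈ Fr G c) (hut : ¬ Rm G c u t) (rt : Rm G c t r) :
    Sv G c t r a b := by
  have hm := hO.mu1
  obtain ⟨e, T⟩ := sv_mk hG hm ((A.n3.nb t).2 (by simp)).symm A.ca rt A.cy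
  have h := f3e hG noH hO U hb A ht hut
  rcases (T.n3.nb b).1 h with h1 | h1 | h1
  · have := hb.1; rw [h1, T.cm] at this; cases this
  · exact absurd h1 U.n3.yz.symm
  · subst h1
    exact T

/-- no `A`-vertex has three free neighbours -/
theorem no3free (hG : G.IsRegularOfDegree 3)
    (noH : ∀ a s1 s2 s3 v1 v2 v3 p1 p2 p3, ¬ Hub3 G c a s1 s2 s3 v1 v2 v3 p1 p2 p3)
    (hO : Opt G c 1) {a u t z : V} (A : Av G c a u t z) (hu : u ∈ Fr G c) (ht : t ∈ Fr G c)
    (hz : z ∈ Fr G c) : False := by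
  have hm := hO.mu1
  -- the case of mates `u`, `z`
  have key : ∀ {u t z : V}, Av G c a u t z → u ∈ Fr G c → t ∈ Fr G c → z ∈ Fr G c →
      Rm G c u z → False := by
    intro u t z A hu ht hz h
    obtain ⟨b, U⟩ := sv_mk hG hm ((A.n3.nb u).2 (by simp)).symm A.ca h A.cx
    obtain ⟨e, Z⟩ := sv_mk hG hm ((A.n3.nb z).2 (by simp)).symm A.ca h.symm A.cz
    obtain ⟨r, f, T⟩ := sv_ex hG (fr_tS ht) ((A.n3.nb t).2 (by simp)).symm A.ca
    have rt := sv_rm T
    have n1 : ¬ Rm G c u t := fun h' => A.n3.yz (rm_uniq (hm u) h' h)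
    have n2 : ¬ Rm G c z t := fun h' => A.n3.xy (rm_uniq (hm z) h.symm h')
    have hb := fr_tA hm hu ((U.n3.nb b).2 (by simp)) U.cb
    have he := fr_tA hm hz ((Z.n3.nb e).2 (by simp)) Z.cb
    have T1 := f3e' hG noH hO U hb A ht n1 rt
    have T2 := f3e' hG noH hO Z he (av_perm (av_perm' (av_perm A))) ht n2 rt
    have hbe : b = e := by
      rcases (T1.n3.nb e).1 ((T2.n3.nb e).2 (by simp)) with h1 | h1 | h1
      · have := he.1; rw [h1, T1.cm] at this; cases this
      · exact absurd h1.symm Z.n3.yz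
      · exact h1.symm
    subst hbe
    refine st_K5 V G hG c 1 (le_refl 1) hO a b u z t U.n3.yz (av_perm' A) ?_ h (fr_tS ht)
    exact av_mk3 hG hb ((U.n3.nb b).2 (by simp)).symm ((Z.n3.nb b).2 (by simp)).symm
      ((T1.n3.nb b).2 (by simp)).symm A.n3.xz A.n3.xy A.n3.yz.symm
  rcases hub2 hG noH A (fr_tS hu) (fr_tS ht) (fr_tS hz) with h | h | h
  · exact key (av_perm' A) hu hz ht h
  · exact key A hu ht hz h
  · exact key (av_perm A) ht hu hz h

/-- a slot which is not an `N` slot -/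
theorem ns (hG : G.IsRegularOfDegree 3) (hO : Opt G c 1) (hg : ¬ Good G)
    (hF : 5 ≤ (Fr G c).card) {u m a b : V} (U : Sv G c u m a b) (ha : tA G c a)
    (hb : tA G c b) : ∃ t w r, Av G c a u t w ∧ Rm G c t r ∧ r ≠ u := by
  have hm := hO.mu1
  obtain ⟨x, y, A⟩ := av_ex hG ha ((U.n3.nb a).2 (by simp)).symm
  by_cases h1 : ∀ w, Rm G c x w → w = u
  · by_cases h2 : ∀ w, Rm G c y w → w = u
    · exact absurd ((st_ONE V G hG c hO).2.1 u m a b x y (sv_slot hm U hb A) h1 h2 hF) hg
    · push Not at h2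
      obtain ⟨r, h3, h4⟩ := h2
      exact ⟨y, x, r, av_perm' A, h3, h4⟩
  · push Not at h1
    obtain ⟨r, h3, h4⟩ := h1
    exact ⟨x, y, r, A, h3, h4⟩

/-- (E2): a square slot confines `T1` to the mates of its two free vertices -/
theorem e2 (hG : G.IsRegularOfDegree 3)
    (noH : ∀ a s1 s2 s3 v1 v2 v3 p1 p2 p3, ¬ Hub3 G c a s1 s2 s3 v1 v2 v3 p1 p2 p3)
    (hO : Opt G c 1) (hg : ¬ Good G) {a u m b t w r x : V} (U : Sv G c u m a b)
    (ha : tA G c a) (hb : tA G c b) (A : Av G c a u t w) (ht : t ∈ Fr G c)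
    (rt : Rm G c t r) (hru : r ≠ u) (hx : x ∈ T1 G c) : x = m ∨ x = r := by
  have hm := hO.mu1
  have uF : u ∈ Fr G c := (sv_Fr hm U).2 ⟨ha, hb⟩
  have hut : ¬ Rm G c u t := by
    intro h
    exact hru (rm_uniq (hm t) rt h.symm)
  have T := f3e' hG noH hO U hb A ht hut rt
  have xu : x ≠ u := by rintro rfl; exact fr_not_t1 uF hx
  have xt : x ≠ t := by rintro rfl; exact fr_not_t1 ht hx
  have mt : m ≠ t := by rintro rfl; exact hut (sv_rm U)
  by_contra hn
  push Not at hn
  obtain ⟨n1, n2⟩ := hn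
  -- `x` is not adjacent to `b`
  have nxb : ¬ G.Adj x b := by
    intro h
    have B := av_mk3 hG hb ((U.n3.nb b).2 (by simp)).symm ((T.n3.nb b).2 (by simp)).symm h.symm
      A.n3.xy xu.symm xt.symm
    rcases hub2 hG noH B (fr_tS uF) (fr_tS ht) (t1_tS hx) with h1 | h1 | h1
    · exact hut h1
    · exact n1 (rm_uniq (hm u) h1 (sv_rm U))
    · exact n2 (rm_uniq (hm t) h1 rt)
  by_cases hw : Rm G c t w
  · -- `w = r`
    have : r = w := rm_uniq (hm t) rt hw
    subst this
    refine hg (good_one hO (st_PB V G hG c hm t r a b r u m x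
      (sv_slot hm T hb (av_perm' (av_perm A))) ?_ (sv_rm U) mt hx xu n1 n2 nxb))
    intro w' h'
    exact rm_uniq (hm r) h' rt.symm
  · refine hg (good_one hO (st_PB V G hG c hm u m a b w t r x
      (sv_slot hm U hb (av_perm' A)) ?_ rt hru hx xt n2 n1 nxb))
    intro w' h'
    have wS : tS G c w := ⟨A.cz, mu_of_rm hm h'⟩
    rcases hub2 hG noH A (fr_tS uF) (fr_tS ht) wS with h1 | h1 | h1
    · exact absurd h1 hut
    · exact rm_uniq (hm w) h' h1.symm
    · exact absurd h1 hw

/-- (E3): no square slot if `T1` is not empty -/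
theorem e3 (hG : G.IsRegularOfDegree 3)
    (noH : ∀ a s1 s2 s3 v1 v2 v3 p1 p2 p3, ¬ Hub3 G c a s1 s2 s3 v1 v2 v3 p1 p2 p3)
    (hO : Opt G c 1) (hg : ¬ Good G) (hF : 6 ≤ (Fr G c).card) {a u m b t w r x : V}
    (U : Sv G c u m a b) (ha : tA G c a) (hb : tA G c b) (A : Av G c a u t w) (ht : t ∈ Fr G c)
    (rt : Rm G c t r) (hru : r ≠ u) (hx : x ∈ T1 G c) : False := by
  have hm := hO.mu1
  have uF : u ∈ Fr G c := (sv_Fr hm U).2 ⟨ha, hb⟩
  have hut : ¬ Rm G c u t := by
    intro h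
    exact hru (rm_uniq (hm t) rt h.symm)
  have T := f3e' hG noH hO U hb A ht hut rt
  -- for every other free vertex, every hub has a `T1`-neighbour
  have key : ∀ u' m' a' b', u' ≠ u → u' ≠ t → Sv G c u' m' a' b' → tA G c a' → tA G c b' →
      ∃ t', t' ∈ T1 G c ∧ G.Adj t' a' ∧ t' ≠ u' ∧ (t' = m ∨ t' = r) := by
    intro u' m' a' b' hu1 hu2 U' ha' hb'
    have uF' : u' ∈ Fr G c := (sv_Fr hm U').2 ⟨ha', hb'⟩
    obtain ⟨t', w', r', A', rt', hru'⟩ := ns hG hO hg (by omega) U' ha' hb'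
    have hta : G.Adj t' a' := ((A'.n3.nb t').2 (by simp)).symm
    have tS' : tS G c t' := ⟨A'.cy, mu_of_rm hm rt'⟩
    rcases s_fr_or hG hm tS' hta ha' with h | h
    · exfalso
      have h1 := e2 hG noH hO hg U ha hb A ht rt hru hx
      have h2 := e2 hG noH hO hg U' ha' hb' A' h rt' hru' hx
      have h3 : t' = u ∨ t' = t := by
        rcases h2 with h2 | h2
        · exfalso
          rcases h1 with h1 | h1
          · refine hu1 (rm_uniq (hm m) ?_ (sv_rm U).symm)
            rw [← h1, h2]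
            exact (sv_rm U').symm
          · refine hu2 (rm_uniq (hm r) ?_ rt.symm)
            rw [← h1, h2]
            exact (sv_rm U').symm
        · rcases h1 with h1 | h1
          · left
            refine rm_uniq (hm m) ?_ (sv_rm U).symm
            rw [← h1, h2]
            exact rt'.symm
          · right
            refine rm_uniq (hm r) ?_ rt.symm
            rw [← h1, h2]
            exact rt'.symm
      have hub : a' = a ∨ a' = b := by
        rcases h3 with h3 | h3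
        · rcases (U.n3.nb a').1 (h3 ▸ hta) with e | e | e
          · have := ha'.1; rw [e, U.cm] at this; cases this
          · exact Or.inl e
          · exact Or.inr e
        · rcases (T.n3.nb a').1 (h3 ▸ hta) with e | e | e
          · have := ha'.1; rw [e, T.cm] at this; cases this
          · exact Or.inl e
          · exact Or.inr e
      have hu' : G.Adj a' u' := (A'.n3.nb u').2 (by simp)
      have a1 : G.Adj a' u := by
        rcases hub with rfl | rfl
        · exact ((U.n3.nb a').2 (by simp)).symm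
        · exact ((U.n3.nb a').2 (by simp)).symm
      have a2 : G.Adj a' t := by
        rcases hub with rfl | rfl
        · exact ((T.n3.nb a').2 (by simp)).symm
        · exact ((T.n3.nb a').2 (by simp)).symm
      exact no3free hG noH hO (av_mk3 hG ha' a1 a2 hu' A.n3.xy hu1.symm hu2.symm) uF ht uF'
    · exact ⟨t', h, hta, A'.n3.xy.symm, e2 hG noH hO hg U ha hb A ht rt hru h⟩
  -- two other free vertices are neighbours of the hub of `m`
  have key2 : ∀ u' ∈ Fr G c, u' ≠ u → u' ≠ t → ∃ a', tA G c a' ∧ G.Adj m a' ∧ G.Adj a' u' ∧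
      m ∈ T1 G c := by
    intro u' hu' h1 h2
    obtain ⟨m', a', b', nb, cu, cm, ca, cb, hab, ma, mb⟩ := fr_data hG hm hu'
    have U' : Sv G c u' m' a' b' := by
      refine ⟨cu, cm, ca, cb, nb, ?_, ?_, hab⟩
      · rintro rfl; rw [ca] at cm; cases cm
      · rintro rfl; rw [cb] at cm; cases cm
    obtain ⟨t1, h3, h4, -, h5⟩ := key u' m' a' b' h1 h2 U' ⟨ca, ma⟩ ⟨cb, mb⟩
    obtain ⟨t2, h6, h7, -, h8⟩ := key u' m' b' a' h1 h2 (sv_swap U') ⟨cb, mb⟩ ⟨ca, ma⟩
    have hne : t1 ≠ t2 := by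
      rintro rfl
      exact hab (t1_uniq hG hm h3 h7 ⟨cb, mb⟩ h4 ⟨ca, ma⟩)
    have aa : G.Adj a' u' := ((nb a').2 (by simp)).symm
    have ab : G.Adj b' u' := ((nb b').2 (by simp)).symm
    rcases h5 with h5 | h5
    · subst h5
      exact ⟨a', ⟨ca, ma⟩, h4, aa, h3⟩
    · rcases h8 with h8 | h8
      · subst h8
        exact ⟨b', ⟨cb, mb⟩, h7, ab, h6⟩
      · exact absurd (h5.trans h8.symm) hne
  obtain ⟨u0, hu0, h0⟩ := exists_out (A := Fr G c) (B := {u, t})
    (lt_of_le_of_lt Finset.card_le_two (by omega))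
  simp only [Finset.mem_insert, Finset.mem_singleton, not_or] at h0
  obtain ⟨h, hA, hmh, -, mT⟩ := key2 u0 hu0 h0.1 h0.2
  have hcard := nb_erase hG hmh.symm
  obtain ⟨u1, hu1, h1⟩ := exists_out (A := Fr G c) (B := {u, t} ∪ (G.neighborFinset h).erase m) (by
    have h3 := Finset.card_union_le ({u, t} : Finset V) ((G.neighborFinset h).erase m)
    have h4 : ({u, t} : Finset V).card ≤ 2 := Finset.card_le_two
    omega)
  simp only [Finset.mem_union, Finset.mem_insert, Finset.mem_singleton, Finset.mem_erase,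
    SimpleGraph.mem_neighborFinset, not_or, not_and] at h1
  obtain ⟨h', hA', hmh', hu', -⟩ := key2 u1 hu1 h1.1.1 h1.1.2
  have e := t1_uniq hG hm mT hmh hA hmh' hA'
  subst e
  refine h1.2 ?_ hu'
  rintro rfl
  exact fr_not_t1 hu1 mT

/-- (E4), claim: if `T1` is empty then the mate of a free vertex is of type `D` -/
theorem e4a (hG : G.IsRegularOfDegree 3)
    (noH : ∀ a s1 s2 s3 v1 v2 v3 p1 p2 p3, ¬ Hub3 G c a s1 s2 s3 v1 v2 v3 p1 p2 p3)
    (hO : Opt G c 1) (hg : ¬ Good G) (hF : 6 ≤ (Fr G c).card) (hT : ∀ x, x ∉ T1 G c)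
    {a u m b : V} (U : Sv G c u m a b) (ha : tA G c a) (hb : tA G c b) : m ∉ Fr G c := by
  intro mF
  have hm := hO.mu1
  have uF : u ∈ Fr G c := (sv_Fr hm U).2 ⟨ha, hb⟩
  obtain ⟨t, w, r, A, rt, hru⟩ := ns hG hO hg (by omega) U ha hb
  have hta : G.Adj t a := ((A.n3.nb t).2 (by simp)).symm
  have tS' : tS G c t := ⟨A.cy, mu_of_rm hm rt⟩
  have tF : t ∈ Fr G c := by
    rcases s_fr_or hG hm tS' hta ha with h | h
    · exact h
    · exact absurd h (hT t)
  have hut : ¬ Rm G c u t := by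
    intro h
    exact hru (rm_uniq (hm t) rt h.symm)
  have T := f3e' hG noH hO U hb A tF hut rt
  have mt : m ≠ t := by rintro rfl; exact hut (sv_rm U)
  have um : u ≠ m := (sv_rm U).ne
  -- `m` is adjacent to neither `a` nor `b`
  have nma : ¬ G.Adj a m := by
    intro h
    exact no3free hG noH hO (av_mk3 hG ha ((A.n3.nb u).2 (by simp)) ((A.n3.nb t).2 (by simp)) h
      A.n3.xy um mt.symm) uF tF mF
  have nmb : ¬ G.Adj b m := by
    intro h
    exact no3free hG noH hO (av_mk3 hG hb ((U.n3.nb b).2 (by simp)).symm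
      ((T.n3.nb b).2 (by simp)).symm h A.n3.xy um mt.symm) uF tF mF
  -- `w` is of type `B`
  have wB : tB G c w := by
    rcases tB_or_tS hm A.cz with h | h
    · exact h
    · exfalso
      have wF : w ∈ Fr G c := by
        rcases s_fr_or hG hm h ((A.n3.nb w).2 (by simp)).symm ha with h1 | h1
        · exact h1
        · exact absurd h1 (hT w)
      exact no3free hG noH hO A uF tF wF
  obtain ⟨w', B⟩ := av_mk2 hG hb ((T.n3.nb b).2 (by simp)).symm ((U.n3.nb b).2 (by simp)).symm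
    A.n3.xy.symm
  obtain ⟨x, y, M⟩ := sv_mk1 hG hm (sv_rm U).symm U.cm
  have xy : ∃ x y, Sv G c m u x y ∧ tA G c x ∧ tA G c y := by
    obtain ⟨h1, h2⟩ := (sv_Fr hm M).1 mF
    exact ⟨x, y, M, h1, h2⟩
  obtain ⟨x, y, M, hx, hy⟩ := xy
  obtain ⟨X, hX⟩ := st_SQ2 V G hG c hm t u a b w w' r m x y T U (fun h => hut h.symm) (av_perm A) B wB
    (by rintro rfl; exact nmb ((B.n3.nb w').2 (by simp))) M hx hy
  exact hg (good_one hO hX)

/-- (E4): `T1` is not empty -/
theorem e4 (hFC : ST_FCNT) (hG : G.IsRegularOfDegree 3)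
    (noH : ∀ a s1 s2 s3 v1 v2 v3 p1 p2 p3, ¬ Hub3 G c a s1 s2 s3 v1 v2 v3 p1 p2 p3)
    (hO : Opt G c 1) (hg : ¬ Good G) (hF : 6 ≤ (Fr G c).card) : ∃ x, x ∈ T1 G c := by
  by_contra hT
  push Not at hT
  have hm := hO.mu1
  obtain ⟨hcnt, hall⟩ := hFC V G hG c 1 hm hO.imb2
  have frD : ∀ x, x ∈ Fr G c → x ∉ Dd G c := by
    intro x h1 h2
    have h3 := (mem_Fr.1 h1).2
    have h4 := (mem_Dd.1 h2).2
    omega
  have decR : DecidableRel (Rm G c) := fun x y => Classical.dec _
  set D1 : Finset V := (Dd G c).filter (fun d => ∃ u ∈ Fr G c, Rm G c d u) with hD1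
  set D2 : Finset V := (Dd G c).filter (fun d => ∃ d' ∈ Dd G c, Rm G c d d') with hD2
  have hdis : Disjoint D1 D2 := by
    rw [Finset.disjoint_left]
    intro d h1 h2
    obtain ⟨h3, u, hu, hdu⟩ := Finset.mem_filter.1 h1
    obtain ⟨h4, d', hd', hdd⟩ := Finset.mem_filter.1 h2
    have := rm_uniq (hm d) hdu hdd
    subst this
    exact frD u hu hd'
  have hsub : D1 ∪ D2 ⊆ Dd G c := Finset.union_subset (Finset.filter_subset _ _)
    (Finset.filter_subset _ _)
  have c1 := Finset.card_le_card hsub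
  rw [Finset.card_union_of_disjoint hdis] at c1
  -- the mates of the free vertices
  have c2 : (Fr G c).card ≤ D1.card := by
    have hex : ∀ u : V, ∃ m : V, u ∈ Fr G c → m ∈ D1 ∧ Rm G c u m := by
      intro u
      by_cases hu : u ∈ Fr G c
      · obtain ⟨m, a, b, nb, cu, cm, ca, cb, hab, ma, mb⟩ := fr_data hG hm hu
        have U : Sv G c u m a b := by
          refine ⟨cu, cm, ca, cb, nb, ?_, ?_, hab⟩
          · rintro rfl; rw [ca] at cm; cases cm
          · rintro rfl; rw [cb] at cm; cases cm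
        have h1 := e4a hG noH hO hg hF hT U ⟨ca, ma⟩ ⟨cb, mb⟩
        refine ⟨m, fun _ => ⟨Finset.mem_filter.2 ⟨?_, u, hu, (sv_rm U).symm⟩, sv_rm U⟩⟩
        rcases hall m (sv_tSm hm U) with h | h | h
        · exact absurd h h1
        · exact absurd h (hT m)
        · exact h
      · exact ⟨u, fun h => absurd h hu⟩
    choose f hf using hex
    refine Finset.card_le_card_of_injOn f (fun u hu => (hf u hu).1) ?_
    intro u hu u' hu' e
    have h1 := (hf u hu).2
    have h2 := (hf u' hu').2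
    rw [← e] at h2
    exact rm_uniq (hm (f u)) h1.symm h2.symm
  -- the apexes
  have c3 : (Th G c).card * 2 ≤ D2.card * 2 := by
    refine Finset.card_mul_le_card_mul (fun q d => G.Adj q d) ?_ ?_
    · intro q hq
      obtain ⟨hq1, hq2⟩ := mem_Th.1 hq
      unfold nS at hq2
      rw [← hq2]
      refine Finset.card_le_card ?_
      obtain ⟨s, s', hne, he⟩ := Finset.card_eq_two.1 hq2
      have hs : s ∈ Finset.univ.filter (fun w => G.Adj q w ∧ tS G c w) := by rw [he]; simp
      have hs' : s' ∈ Finset.univ.filter (fun w => G.Adj q w ∧ tS G c w) := by rw [he]; simp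
      rw [Finset.mem_filter] at hs hs'
      have hr := F1 hG (le_refl 1) hO hq1 hs.2.2 hs'.2.2 hs.2.1 hs'.2.1 hne
      have inD : ∀ s, G.Adj q s → tS G c s → s ∈ Dd G c := by
        intro s h1 h2
        rcases hall s h2 with h | h | h
        · exfalso
          exact tA_not_tQ (fr_tA hm h h1.symm hq1.1) hq1
        · exact absurd h (hT s)
        · exact h
      have d1 := inD s hs.2.1 hs.2.2
      have d2 := inD s' hs'.2.1 hs'.2.2
      rw [he]
      intro x hx
      rw [Finset.mem_bipartiteAbove]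
      rcases Finset.mem_insert.1 hx with h | h
      · subst h
        exact ⟨Finset.mem_filter.2 ⟨d1, s', d2, hr⟩, hs.2.1⟩
      · rw [Finset.mem_singleton] at h
        subst h
        exact ⟨Finset.mem_filter.2 ⟨d2, s, d1, hr.symm⟩, hs'.2.1⟩
    · intro d hd
      have hd1 := (mem_Dd.1 (Finset.mem_filter.1 hd).1).2
      unfold nQ at hd1
      rw [← hd1]
      refine Finset.card_le_card ?_
      intro q hq
      rw [Finset.mem_bipartiteBelow] at hq
      exact Finset.mem_filter.2 ⟨Finset.mem_univ q, hq.2.symm, (mem_Th.1 hq.1).1⟩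
  omega

/-- the number of vertices of type `T1`, from the number of `T1`-vertices seen from a free vertex -/
theorem t1cnt (hG : G.IsRegularOfDegree 3) (hO : Opt G c 1) (n : ℕ)
    (h : ∀ u ∈ Fr G c, ∃ S : Finset V, S ⊆ T1 G c ∧ n ≤ S.card ∧
      ∀ t ∈ S, ∃ a, tA G c a ∧ G.Adj a u ∧ G.Adj a t) :
    (Fr G c).card * n ≤ (T1 G c).card * 2 := by
  have hm := hO.mu1
  classical
  refine Finset.card_mul_le_card_mul (fun u t => ∃ a, tA G c a ∧ G.Adj a u ∧ G.Adj a t) ?_ ?_
  · intro u hu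
    obtain ⟨S, h1, h2, h3⟩ := h u hu
    refine h2.trans (Finset.card_le_card ?_)
    intro t ht
    rw [Finset.mem_bipartiteAbove]
    exact ⟨h1 ht, h3 t ht⟩
  · intro t ht
    rcases Finset.eq_empty_or_nonempty
      (Finset.bipartiteBelow (fun u t => ∃ a, tA G c a ∧ G.Adj a u ∧ G.Adj a t) (Fr G c) t) with
      h0 | ⟨u0, h0⟩
    · rw [h0]
      simp
    · rw [Finset.mem_bipartiteBelow] at h0
      obtain ⟨hu0, a, ha, hau, hat⟩ := h0
      rw [← nb_erase hG hat]
      refine Finset.card_le_card ?_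
      intro u hu
      rw [Finset.mem_bipartiteBelow] at hu
      obtain ⟨hu1, a', ha', hau', hat'⟩ := hu
      have e := t1_uniq hG hm ht hat.symm ha hat'.symm ha'
      subst e
      rw [Finset.mem_erase, SimpleGraph.mem_neighborFinset]
      refine ⟨?_, hau'⟩
      rintro rfl
      exact fr_not_t1 hu1 ht

/-- the case `j = 1`, for the colouring of THEOREM C -/
theorem ej (hUA : ST_UA) (hUB : ST_UB) (hUC : ST_UC) (hFC : ST_FCNT)
    (hG : G.IsRegularOfDegree 3)
    (noH : ∀ a s1 s2 s3 v1 v2 v3 p1 p2 p3, ¬ Hub3 G c a s1 s2 s3 v1 v2 v3 p1 p2 p3)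
    (hO : Opt G c 1) (hF : 6 ≤ (Fr G c).card)
    (hC : ∀ x p u m e y z, x ∈ Th G c → Rm G c x p → p ∉ Th G c → Sv G c u m p e → tA G c e →
      Av G c e u y z → Rm G c y z) : Good G := by
  by_contra hg
  have hm := hO.mu1
  obtain ⟨x, hx⟩ := e4 hFC hG noH hO hg hF
  -- data of free vertices
  have frd : ∀ u ∈ Fr G c, ∃ m a b, Sv G c u m a b ∧ tA G c a ∧ tA G c b := by
    intro u hu
    obtain ⟨m, a, b, nb, cu, cm, ca, cb, hab, ma, mb⟩ := fr_data hG hm hu
    refine ⟨m, a, b, ⟨cu, cm, ca, cb, nb, ?_, ?_, hab⟩, ⟨ca, ma⟩, ⟨cb, mb⟩⟩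
    · rintro rfl; rw [ca] at cm; cases cm
    · rintro rfl; rw [cb] at cm; cases cm
  -- no square slot
  have nsq : ∀ u m a b t w r, Sv G c u m a b → tA G c a → tA G c b → Av G c a u t w →
      Rm G c t r → r ≠ u → t ∈ T1 G c := by
    intro u m a b t w r U ha hb A rt hru
    rcases s_fr_or hG hm ⟨A.cy, mu_of_rm hm rt⟩ ((A.n3.nb t).2 (by simp)).symm ha with h | h
    · exact (e3 hG noH hO hg hF U ha hb A h rt hru hx).elim
    · exact h
  -- at least six vertices of type `T1`
  have t6 : 6 ≤ (T1 G c).card := by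
    have h := t1cnt hG hO 2 (fun u hu => by
      obtain ⟨m, a, b, U, ha, hb⟩ := frd u hu
      obtain ⟨t, w, r, A, rt, hru⟩ := ns hG hO hg (by omega) U ha hb
      obtain ⟨t', w', r', B, rt', hru'⟩ := ns hG hO hg (by omega) (sv_swap U) hb ha
      have h1 := nsq u m a b t w r U ha hb A rt hru
      have h2 := nsq u m b a t' w' r' (sv_swap U) hb ha B rt' hru'
      have e1 : G.Adj a t := (A.n3.nb t).2 (by simp)
      have e2 : G.Adj b t' := (B.n3.nb t').2 (by simp)
      have hne : t ≠ t' := by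
        rintro rfl
        exact U.n3.yz (t1_uniq hG hm h1 e2.symm hb e1.symm ha)
      refine ⟨{t, t'}, ?_, by rw [Finset.card_pair hne], ?_⟩
      · intro y hy
        rcases Finset.mem_insert.1 hy with h | h
        · rw [h]; exact h1
        · rw [Finset.mem_singleton.1 h]; exact h2
      · intro y hy
        rcases Finset.mem_insert.1 hy with h | h
        · rw [h]; exact ⟨a, ha, (A.n3.nb u).2 (by simp), e1⟩
        · rw [Finset.mem_singleton.1 h]; exact ⟨b, hb, (B.n3.nb u).2 (by simp), e2⟩)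
    omega
  -- every slot is of kind K3
  have k3 : ∀ u m a b, Sv G c u m a b → tA G c a → tA G c b → ∃ t r, Av G c a u t r ∧
      Rm G c t r ∧ t ∈ T1 G c ∧ r ∈ T1 G c := by
    intro u m a b U ha hb
    obtain ⟨t, w, r, A, rt, hru⟩ := ns hG hO hg (by omega) U ha hb
    have h1 := nsq u m a b t w r U ha hb A rt hru
    by_cases hw : ∀ w', Rm G c w w' → w' = u
    · exact absurd ((st_ONE V G hG c hO).2.2 u m a b w t r (sv_slot hm U hb (av_perm' A)) hw rt
        hru t6) hg
    · push Not at hw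
      obtain ⟨w', h2, h3⟩ := hw
      have wS : tS G c w := ⟨A.cz, mu_of_rm hm h2⟩
      rcases hub2 hG noH A (sv_tS hm U) (t1_tS h1) wS with h | h | h
      · exact absurd (rm_uniq (hm t) rt h.symm) hru
      · exact absurd (rm_uniq (hm w) h2 h.symm) h3
      · have e : r = w := rm_uniq (hm t) rt h
        subst e
        exact ⟨t, r, A, rt, h1, nsq u m a b r t t U ha hb (av_perm' A) rt.symm A.n3.xy.symm⟩
  -- at least twelve vertices of type `T1`
  have t12 : 12 ≤ (T1 G c).card := by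
    have h := t1cnt hG hO 4 (fun u hu => by
      obtain ⟨m, a, b, U, ha, hb⟩ := frd u hu
      obtain ⟨t, r, A, rt, h1, h2⟩ := k3 u m a b U ha hb
      obtain ⟨t', r', B, rt', h3, h4⟩ := k3 u m b a (sv_swap U) hb ha
      have e1 : G.Adj a t := (A.n3.nb t).2 (by simp)
      have e2 : G.Adj a r := (A.n3.nb r).2 (by simp)
      have e3 : G.Adj b t' := (B.n3.nb t').2 (by simp)
      have e4 : G.Adj b r' := (B.n3.nb r').2 (by simp)
      have sep : ∀ y, y ∈ T1 G c → G.Adj a y → G.Adj b y → False := by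
        intro y hy h5 h6
        exact U.n3.yz (t1_uniq hG hm hy h6.symm hb h5.symm ha)
      have n1 : t ≠ r := rt.ne
      have n2 : t' ≠ r' := rt'.ne
      have n3 : t ≠ t' := by rintro rfl; exact sep t h1 e1 e3
      have n4 : t ≠ r' := by rintro rfl; exact sep t h1 e1 e4
      have n5 : r ≠ t' := by rintro rfl; exact sep r h2 e2 e3
      have n6 : r ≠ r' := by rintro rfl; exact sep r h2 e2 e4
      refine ⟨{t, r, t', r'}, ?_, ?_, ?_⟩
      · intro y hy
        simp only [Finset.mem_insert, Finset.mem_singleton] at hy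
        rcases hy with rfl | rfl | rfl | rfl
        · exact h1
        · exact h2
        · exact h3
        · exact h4
      · rw [Finset.card_insert_of_notMem (by simp [n1, n3, n4]),
          Finset.card_insert_of_notMem (by simp [n5, n6]), Finset.card_pair n2]
      · intro y hy
        simp only [Finset.mem_insert, Finset.mem_singleton] at hy
        rcases hy with rfl | rfl | rfl | rfl
        · exact ⟨a, ha, (A.n3.nb u).2 (by simp), e1⟩
        · exact ⟨a, ha, (A.n3.nb u).2 (by simp), e2⟩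
        · exact ⟨b, hb, (B.n3.nb u).2 (by simp), e3⟩
        · exact ⟨b, hb, (B.n3.nb u).2 (by simp), e4⟩)
    omega
  -- one slot
  obtain ⟨u, hu⟩ := Finset.card_pos.1 (show 0 < (Fr G c).card by omega)
  obtain ⟨m, a, b, U, ha, hb⟩ := frd u hu
  obtain ⟨t, t', A, rt, hT, hT'⟩ := k3 u m a b U ha hb
  obtain ⟨q, T⟩ := sv_mk hG hm ((A.n3.nb t).2 (by simp)).symm A.ca rt A.cy
  have hq : tQ G c q := by
    rcases (sv_T1 hm T).1 hT with h | h
    · exact h.2
    · exact absurd h.1 (tA_not_tQ ha)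
  have adqt : G.Adj q t := ((T.n3.nb q).2 (by simp)).symm
  obtain ⟨k, hk⟩ := exists_mate hq.2
  have hkQ : tQ G c k := ⟨by rw [hk.2, hq.1], mu_of_rm hm hk.symm⟩
  -- `q` is no apex
  have q1 : ∀ w, G.Adj q w → tS G c w → w = t := by
    intro w h1 h2
    by_contra hne
    have h3 := F1 hG (le_refl 1) hO hq (t1_tS hT) h2 adqt h1 (fun e => hne e.symm)
    have h4 : t' = w := rm_uniq (hm t) rt h3
    subst h4
    exact st_DIA V G hG c 1 (le_refl 1) hO a q u t t' A hq adqt h1 rt (fr_tS hu)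
  have qTh : q ∉ Th G c := by
    intro h
    obtain ⟨-, h2⟩ := mem_Th.1 h
    unfold nS at h2
    obtain ⟨s, s', hne, he⟩ := Finset.card_eq_two.1 h2
    have hs : s ∈ Finset.univ.filter (fun w => G.Adj q w ∧ tS G c w) := by rw [he]; simp
    have hs' : s' ∈ Finset.univ.filter (fun w => G.Adj q w ∧ tS G c w) := by rw [he]; simp
    rw [Finset.mem_filter] at hs hs'
    exact hne ((q1 s hs.2.1 hs.2.2).trans (q1 s' hs'.2.1 hs'.2.2).symm)
  -- `k` is no apex
  have kTh : k ∉ Th G c := by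
    intro h
    have h1 := hC k q t t' a u t' h hk.symm qTh (sv_swap T) ha (av_perm A)
    exact A.n3.xy (rm_uniq (hm t') h1.symm rt.symm)
  obtain ⟨k', g, g', h1, h2, h3, nbk, ck, cg, cg'⟩ := (NB V G hG c k).1 hkQ.2
  rw [hkQ.1] at ck cg cg'
  have ek : k' = q := by
    have h4 : Rm G c k k' := ⟨(nbk k').2 (by simp), by rw [ck, hkQ.1]⟩
    exact rm_uniq (hm k) h4 hk.symm
  subst ek
  have K : N3 G k k' g g' := ⟨nbk, h1, h2, h3⟩
  -- a free vertex for `U3`
  have hbu : G.Adj b u := ((U.n3.nb b).2 (by simp)).symm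
  have nbe := nb_erase hG hbu
  have fUA : ∀ g g', N3 G k k' g g' → g ≠ t' → g' ≠ t' → (∀ w, Rm G c g w → w = u) →
      (∀ w, Rm G c g' w → w = u) → False := by
    intro g g' K n1 n2 r1 r2
    obtain ⟨s, hs, hn⟩ := exists_out (A := Fr G c) (B := {u, m} ∪ (G.neighborFinset b).erase u) (by
      have h3 := Finset.card_union_le ({u, m} : Finset V) ((G.neighborFinset b).erase u)
      have h4 : ({u, m} : Finset V).card ≤ 2 := Finset.card_le_two
      omega)
    simp only [Finset.mem_union, Finset.mem_insert, Finset.mem_singleton, Finset.mem_erase,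
      SimpleGraph.mem_neighborFinset, not_or, not_and] at hn
    obtain ⟨X, hX⟩ := hUA V G hG c hm u m a b t t' k' k g g' s U hb A T hk K n1 n2 r1 r2 hs
      hn.1.1 hn.1.2 (by rintro rfl; exact fr_not_t1 hs hT') (fun h => hn.2 hn.1.1 h.symm)
    exact hg (good_one hO hX)
  have fUBC : ∀ g g', N3 G k k' g g' → tS G c g → tB G c g' → False := by
    intro g g' K hgS hgB
    have sex : ∀ p q : V, ∃ s ∈ T1 G c, s ≠ t ∧ s ≠ t' ∧ s ≠ p ∧ s ≠ q ∧ s ≠ m ∧
        ¬ G.Adj s b := by
      intro p q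
      obtain ⟨s, hs, hn⟩ := exists_out (A := T1 G c)
        (B := {t, t', p, q, m} ∪ (G.neighborFinset b).erase u) (by
          have h3 := Finset.card_union_le ({t, t', p, q, m} : Finset V)
            ((G.neighborFinset b).erase u)
          have h4 : ({t, t', p, q, m} : Finset V).card ≤ 5 := Finset.card_le_five
          omega)
      simp only [Finset.mem_union, Finset.mem_insert, Finset.mem_singleton, Finset.mem_erase,
        SimpleGraph.mem_neighborFinset, not_or, not_and] at hn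
      refine ⟨s, hs, hn.1.1, hn.1.2.1, hn.1.2.2.1, hn.1.2.2.2.1, hn.1.2.2.2.2, ?_⟩
      intro h
      refine hn.2 ?_ h.symm
      rintro rfl
      exact fr_not_t1 hu hs
    by_cases e : g = t'
    · subst e
      obtain ⟨s, hs, n1, n2, -, -, n5, n6⟩ := sex t t
      obtain ⟨X, hX⟩ := hUC V G hG c hm u m a b t g k' k g' s U hb A T hk K hgB q1 hs n1 n2 n5 n6
      exact hg (good_one hO hX)
    · obtain ⟨h, rgh⟩ := exists_mate hgS.2
      by_cases ehu : h = u
      · subst ehu
        refine fUA g g' K e ?_ (fun w hw => rm_uniq (hm g) hw rgh)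
          (fun w hw => absurd hw (nomate hgB.2 w))
        rintro rfl
        have := hgB.2
        rw [(t1_tS hT').2] at this
        omega
      · obtain ⟨s, hs, n1, n2, n3, n4, n5, n6⟩ := sex g h
        obtain ⟨X, hX⟩ := hUB V G hG c hm u m a b t t' k' k g g' h s U hb A T hk K e hgB rgh ehu
          q1 hs n1 n2 n3 n4 n5 n6
        exact hg (good_one hO hX)
  have K' : N3 G k k' g' g := ⟨fun w => (nbk w).trans (by tauto), h2, h1, h3.symm⟩
  have adg : G.Adj k g := (nbk g).2 (by simp)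
  have adg' : G.Adj k g' := (nbk g').2 (by simp)
  have tBt : ∀ g, tB G c g → g ≠ t' := by
    rintro g h rfl
    have := h.2
    rw [(t1_tS hT').2] at this
    omega
  have cgf : c g = false := by rw [cg]; rfl
  have cgf' : c g' = false := by rw [cg']; rfl
  rcases tB_or_tS hm cgf with hB | hS <;> rcases tB_or_tS hm cgf' with hB' | hS'
  · exact fUA g g' K (tBt g hB) (tBt g' hB') (fun w hw => absurd hw (nomate hB.2 w))
      (fun w hw => absurd hw (nomate hB'.2 w))
  · exact fUBC g' g K' hS' hB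
  · exact fUBC g g' K hS hB'
  · exact kTh (th_mk hG hkQ adg adg' hS hS' h3)

end loc

/-- the case `j = 1` -/
theorem st_EJ (hH : ST_H3J) (hC : ST_THC) (hUA : ST_UA) (hUB : ST_UB) (hUC : ST_UC)
    (hFC : ST_FCNT) : ST_EJ := by
  intro V _ _ G _ hG c₀ hO₀
  obtain ⟨c, hO, hF, hP⟩ := hC V G hG c₀ 1 (le_refl 1) hO₀
  by_contra hg
  exact hg (ej hUA hUB hUC hFC hG
    (fun a s1 s2 s3 v1 v2 v3 p1 p2 p3 H => hg (hH V G hG c hO a s1 s2 s3 v1 v2 v3 p1 p2 p3 H))
    hO (by omega) hP)

end Pool.Agent.Helper45.MC
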